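import Mathlib

set_option autoImplicit false
open Filter Topology Set Metric

/-! Project JQ (MP_28f04c_an, S04138): every hyperbolic polynomial with connected Julia set has
infinitely many quasisymmetries.  Exact statements of the subtasks. -/

namespace Pool.Agent.W363.JQ

/-- the `n`-th iterate of the polynomial `f` -/
abbrev it (f : Polynomial ℂ) (n : ℕ) : ℂ → ℂ := (fun w : ℂ => f.eval w)^[n]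

/-- filled Julia set -/
def KK (f : Polynomial ℂ) : Set ℂ :=
  {z : ℂ | Bornology.IsBounded (Set.range (fun n : ℕ => (fun w : ℂ => f.eval w)^[n] z))}

/-- Julia set -/
def JJ (f : Polynomial ℂ) : Set ℂ := frontier (KK f)

/-- postcritical set -/
def PC (f : Polynomial ℂ) : Set ℂ :=
  closure (⋃ c ∈ {c : ℂ | f.derivative.eval c = 0},
    Set.range (fun n : ℕ => (fun w : ℂ => f.eval w)^[n] c))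

structure Hyp (f : Polynomial ℂ) : Prop where
  deg : 2 ≤ f.natDegree
  disj : Disjoint (PC f) (JJ f)
  conn : IsConnected (JJ f)

/-- basic facts -/
structure Bas (f : Polynomial ℂ) : Prop where
  deg : 2 ≤ f.natDegree
  cpt : IsCompact (KK f)
  jne : (JJ f).Nonempty
  jcpt : IsCompact (JJ f)
  jsub : JJ f ⊆ KK f
  invK : ∀ z, f.eval z ∈ KK f ↔ z ∈ KK f
  invJ : ∀ z, f.eval z ∈ JJ f ↔ z ∈ JJ f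
  esc : ∀ z, z ∉ KK f → Tendsto (fun n : ℕ => ‖it f n z‖) atTop atTop
  big : ∃ R : ℝ, 0 < R ∧ ∀ z : ℂ, R ≤ ‖z‖ → 2 * ‖z‖ ≤ ‖f.eval z‖
  cconn : IsConnected (KK f)ᶜ
  intj : interior (JJ f) = ∅

/-- all inverse branches on balls of radius `r` about points of `J` exist and contract by `1/2` -/
def Ex (f : Polynomial ℂ) (r : ℝ) : Prop :=
  0 < r ∧ ∀ x ∈ JJ f, ∀ w ∈ ball x r, ∀ z, f.eval z = w → ∃ g : ℂ → ℂ,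
    DifferentiableOn ℂ g (ball x r) ∧ g w = z ∧ (∀ u ∈ ball x r, f.eval (g u) = u) ∧
    ∀ u ∈ ball x r, ∀ v ∈ ball x r, dist (g u) (g v) ≤ dist u v / 2

/-- the same for the `n`-th iterate -/
def ExN (f : Polynomial ℂ) (r : ℝ) (n : ℕ) : Prop :=
  0 < r ∧ ∀ x ∈ JJ f, ∀ w ∈ ball x r, ∀ z, it f n z = w → ∃ g : ℂ → ℂ,
    DifferentiableOn ℂ g (ball x r) ∧ g w = z ∧ g x ∈ JJ f ∧
    (∀ u ∈ ball x r, it f n (g u) = u) ∧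
    ∀ u ∈ ball x r, ∀ v ∈ ball x r, dist (g u) (g v) ≤ dist u v / 2 ^ n

/-- `w` is not a critical value of `p` -/
def CVfree (p : Polynomial ℂ) (w : ℂ) : Prop := ∀ z, p.derivative.eval z = 0 → p.eval z ≠ w

/-- the point of modulus `exp s` and angle `t` (in turns) -/
noncomputable def rp (s t : ℝ) : ℂ := Complex.exp ((s : ℂ) + 2 * (Real.pi : ℂ) * (t : ℂ) * Complex.I)

structure Bott (f : Polynomial ℂ) (Φ : ℂ → ℂ) : Prop where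
  dif : DifferentiableOn ℂ Φ {w | 1 < ‖w‖}
  inj : Set.InjOn Φ {w | 1 < ‖w‖}
  img : Φ '' {w | 1 < ‖w‖} = (KK f)ᶜ
  conj : ∀ w : ℂ, 1 < ‖w‖ → f.eval (Φ w) = Φ (w ^ f.natDegree)
  inf : ∃ c : ℂ, c ≠ 0 ∧ Tendsto (fun w => Φ w / w) (Bornology.cobounded ℂ) (𝓝 c)
  bdry : ∀ ε : ℝ, 0 < ε → ∃ δ : ℝ, 1 < δ ∧ ∀ w : ℂ, 1 < ‖w‖ → ‖w‖ < δ →
    ∃ x ∈ JJ f, dist (Φ w) x < ε

structure Cara (f : Polynomial ℂ) (Φ : ℂ → ℂ) (φ : ℝ → ℂ) : Prop where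
  cont : Continuous φ
  per : ∀ t, φ (t + 1) = φ t
  conj : ∀ t, f.eval (φ t) = φ (f.natDegree * t)
  rng : Set.range φ = JJ f
  lim : ∀ ε : ℝ, 0 < ε → ∃ s₀ : ℝ, 0 < s₀ ∧ ∀ s : ℝ, 0 < s → s < s₀ → ∀ t : ℝ,
    dist (Φ (rp s t)) (φ t) < ε

/-- invariant Fatou domain on which `f` is not injective -/
structure Dat (f : Polynomial ℂ) (r : ℝ) (U : Set ℂ) : Prop where
  hyp : Hyp f
  ex : Ex f r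
  op : IsOpen U
  co : IsConnected U
  sub : U ⊆ KK f
  fr : frontier U ⊆ JJ f
  map : ∀ z ∈ U, f.eval z ∈ U
  ninj : ¬ Set.InjOn (fun z => f.eval z) U

/-- Riemann map of `U` centred at the attracting fixed point -/
structure Disc (f : Polynomial ℂ) (U : Set ℂ) (p : ℂ) (ψ χ : ℂ → ℂ) : Prop where
  pU : p ∈ U
  difψ : DifferentiableOn ℂ ψ U
  difχ : DifferentiableOn ℂ χ (ball 0 1)
  ψp : ψ p = 0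
  mapψ : ∀ z ∈ U, ψ z ∈ ball (0 : ℂ) 1 ∧ χ (ψ z) = z
  mapχ : ∀ w ∈ ball (0 : ℂ) 1, χ w ∈ U ∧ ψ (χ w) = w
  contr : ∀ ρ : ℝ, ρ < 1 → ∃ κ : ℝ, 0 ≤ κ ∧ κ < 1 ∧
    ∀ z ∈ U, ‖ψ z‖ ≤ ρ → ‖ψ (f.eval z)‖ ≤ κ * ‖ψ z‖

/-- data for the coding tree -/
structure Base (f : Polynomial ℂ) (U A : Set ℂ) (z₀ : ℂ) (z : Bool → ℂ) (c : Bool → ℝ → ℂ) :
    Prop where
  AU : A ⊆ U
  Apc : Disjoint A (PC f)
  Aback : ∀ u ∈ U, f.eval u ∈ A → u ∈ A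
  Aleave : ∀ ε : ℝ, 0 < ε → ∃ n₀ : ℕ, ∀ n, n₀ ≤ n → ∀ u ∈ U, it f n u ∈ A →
    ∃ x ∈ JJ f, dist u x < ε
  ccont : ∀ i, ContinuousOn (c i) (Icc 0 1)
  cA : ∀ i, ∀ t ∈ Icc (0 : ℝ) 1, c i t ∈ A
  c0 : ∀ i, c i 0 = z₀
  c1 : ∀ i, c i 1 = z i
  fz : ∀ i, f.eval (z i) = z₀
  ne : z true ≠ z false

/-- the coding map -/
structure Tree (f : Polynomial ℂ) (U : Set ℂ) (Z : (ℕ → Bool) → ℂ) : Prop where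
  mem : ∀ ω, Z ω ∈ frontier U
  shift : ∀ ω, f.eval (Z ω) = Z (fun i => ω (i + 1))
  lip : ∃ C : ℝ, 0 < C ∧ ∀ (n : ℕ) (ω ω' : ℕ → Bool), (∀ i < n, ω i = ω' i) →
    dist (Z ω) (Z ω') ≤ C / 2 ^ n
  ne : ∀ ω ω' : ℕ → Bool, ω 0 ≠ ω' 0 → (∀ i, ω (i + 1) = ω' (i + 1)) → Z ω ≠ Z ω'

/-- the interval `(s,t)` is saturated modulo 1 -/
def Sat (φ : ℝ → ℂ) (s t : ℝ) : Prop :=
  ∀ u ∈ Ioo s t, ∀ u' : ℝ, φ u = φ u' → ∃ k : ℤ, u' + k ∈ Ioo s t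

/-- periodic boundary values: injectivity of the multiplication on each fibre -/
def BU (D : ℕ) (φ : ℝ → ℂ) : Prop :=
  ∀ t t' : ℝ, φ t = φ t' → (∃ k : ℤ, (D : ℝ) * t' = D * t + k) → ∃ k : ℤ, t' = t + k

/-- lifting of landing points -/
def LIFT (F : ℂ → ℂ) (D : ℕ) (φ : ℝ → ℂ) : Prop :=
  ∀ (z : ℂ) (t : ℝ), F z = φ t → ∃ t' : ℝ, φ t' = z ∧ ∃ k : ℤ, (D : ℝ) * t' = t + k

structure Fin0 (F : Polynomial ℂ) (r : ℝ) (φ : ℝ → ℂ) (α β : ℝ) : Prop where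
  deg : 3 ≤ F.natDegree
  ex : Ex F r
  bas : Bas F
  cont : Continuous φ
  per : ∀ t, φ (t + 1) = φ t
  conj : ∀ t, F.eval (φ t) = φ (F.natDegree * t)
  rng : Set.range φ = JJ F
  bu : BU F.natDegree φ
  ab : α < β
  ba : β < α + 1
  ne : φ α ≠ φ β
  nearα : ∀ t ∈ Icc α β, dist (φ t) (φ α) < r / 2
  nearβ : ∀ t ∈ Icc α β, dist (φ t) (φ β) < r / 2
  fixα : ∀ t : ℝ, φ t = φ α → ∃ k : ℤ, (F.natDegree : ℝ) * t = t + k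
  fixβ : ∀ t : ℝ, φ t = φ β → ∃ k : ℤ, (F.natDegree : ℝ) * t = t + k
  lastα : ∀ t ∈ Ioo α β, φ t ≠ φ α
  firstβ : ∀ t ∈ Ioo α β, φ t ≠ φ β
  sat : Sat φ α β

/-- the two local inverse branches at `φ α` and `φ β` -/
structure Psi (F : Polynomial ℂ) (r : ℝ) (φ : ℝ → ℂ) (α β : ℝ) (ψ₀ ψ₁ : ℂ → ℂ) : Prop where
  dif0 : DifferentiableOn ℂ ψ₀ (ball (φ α) r)
  dif1 : DifferentiableOn ℂ ψ₁ (ball (φ β) r)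
  lip0 : ∀ u ∈ ball (φ α) r, ∀ v ∈ ball (φ α) r, dist (ψ₀ u) (ψ₀ v) ≤ dist u v / 2
  lip1 : ∀ u ∈ ball (φ β) r, ∀ v ∈ ball (φ β) r, dist (ψ₁ u) (ψ₁ v) ≤ dist u v / 2
  inv0 : ∀ u ∈ ball (φ α) r, F.eval (ψ₀ u) = u
  inv1 : ∀ u ∈ ball (φ β) r, F.eval (ψ₁ u) = u
  eq0 : ∀ t ∈ Icc α β, ψ₀ (φ t) = φ (α + (t - α) / F.natDegree)
  eq1 : ∀ t ∈ Icc α β, ψ₁ (φ t) = φ (β - (β - t) / F.natDegree)

def arc (φ : ℝ → ℂ) (s t : ℝ) : Set ℂ := φ '' Icc s t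

/-- local linear transversality of `A` and `B` at `q` -/
def LT (A B : Set ℂ) (q : ℂ) : Prop :=
  ∃ C : ℝ, 0 < C ∧ ∃ ρ : ℝ, 0 < ρ ∧ ∀ x ∈ A, dist x q < ρ → ∀ y ∈ B, dist y q < ρ →
    dist x q ≤ C * dist x y

/-- global linear transversality -/
def Tr (A B : Set ℂ) : Prop :=
  ∃ C : ℝ, 0 < C ∧ ∀ x ∈ A, ∀ y ∈ B,
    (∃ q ∈ A ∩ B, dist x q + dist q y ≤ C * dist x y) ∨ 1 ≤ C * dist x y

/-! ### Statements -/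

def S_cconn : Prop := ∀ f : Polynomial ℂ, 2 ≤ f.natDegree → IsConnected (KK f)ᶜ

def S_basic : Prop := ∀ f : Polynomial ℂ, 2 ≤ f.natDegree → Bas f

def S_hypiter : Prop := ∀ f : Polynomial ℂ, Hyp f → ∀ n : ℕ, 1 ≤ n → ∃ F : Polynomial ℂ,
  (∀ z, F.eval z = it f n z) ∧ F.natDegree = f.natDegree ^ n ∧ KK F = KK f ∧ Hyp F

def S_branch : Prop := ∀ p : Polynomial ℂ, 1 ≤ p.natDegree → ∀ (x : ℂ) (ρ : ℝ) (χ : ℂ → ℂ),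
  DifferentiableOn ℂ χ (ball x ρ) → (∀ u ∈ ball x ρ, CVfree p (χ u)) →
  ∀ w ∈ ball x ρ, ∀ z, p.eval z = χ w → ∃ g : ℂ → ℂ, DifferentiableOn ℂ g (ball x ρ) ∧
    g w = z ∧ ∀ u ∈ ball x ρ, p.eval (g u) = χ u

def S_plift : Prop := ∀ p : Polynomial ℂ, 1 ≤ p.natDegree → ∀ (a b : ℝ) (c : ℝ → ℂ), a ≤ b →
  ContinuousOn c (Icc a b) → (∀ t ∈ Icc a b, CVfree p (c t)) → ∀ z, p.eval z = c a →
  ∃ γ : ℝ → ℂ, ContinuousOn γ (Icc a b) ∧ γ a = z ∧ ∀ t ∈ Icc a b, p.eval (γ t) = c t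

def S_plu : Prop := ∀ (p : Polynomial ℂ) (S : Set ℝ) (γ γ' : ℝ → ℂ), IsPreconnected S →
  ContinuousOn γ S → ContinuousOn γ' S → (∀ t ∈ S, p.eval (γ t) = p.eval (γ' t)) →
  (∀ t ∈ S, p.derivative.eval (γ t) ≠ 0) → (∀ t ∈ S, p.derivative.eval (γ' t) ≠ 0) →
  ∀ t₀ ∈ S, γ t₀ = γ' t₀ → ∀ t ∈ S, γ t = γ' t

def S_exp : Prop := ∀ f : Polynomial ℂ, Hyp f → ∃ (F : Polynomial ℂ) (r : ℝ),
  KK F = KK f ∧ Hyp F ∧ Ex F r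

def S_exn : Prop := ∀ (f : Polynomial ℂ) (r : ℝ), Bas f → Ex f r → ∀ n, ExN f r n

def S_uniq : Prop := ∀ (f : Polynomial ℂ) (r : ℝ), Bas f → Ex f r → ∀ (n : ℕ) (S : Set ℝ)
  (γ γ' : ℝ → ℂ), IsPreconnected S → ContinuousOn γ S → ContinuousOn γ' S →
  (∀ t ∈ S, it f n (γ t) = it f n (γ' t)) →
  (∀ t ∈ S, ∃ x ∈ JJ f, dist (it f n (γ t)) x < r) →
  ∀ t₀ ∈ S, γ t₀ = γ' t₀ → ∀ t ∈ S, γ t = γ' t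

def S_shr : Prop := ∀ (f : Polynomial ℂ) (r : ℝ), Bas f → Ex f r → ∀ (n : ℕ) (a b ω : ℝ)
  (γ : ℝ → ℂ), a ≤ b → 0 < ω → ContinuousOn γ (Icc a b) →
  (∀ t ∈ Icc a b, ∃ x ∈ JJ f, dist (it f n (γ t)) x < r / 2) →
  (∀ s ∈ Icc a b, ∀ t ∈ Icc a b, |s - t| ≤ ω → dist (it f n (γ s)) (it f n (γ t)) < r / 2) →
  dist (γ a) (γ b) ≤ ((b - a) / ω + 1) * r / 2 ^ n

/-- complements of complementary components of closed connected sets are connected -/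
def S_comp : Prop := ∀ Γ V : Set ℂ, IsClosed Γ → IsConnected Γ → IsOpen V → IsConnected V →
  Disjoint V Γ → frontier V ⊆ Γ → IsConnected Vᶜ

/-- Riemann mapping theorem for bounded domains with connected complement -/
def S_rmt : Prop := ∀ (W : Set ℂ) (z₀ : ℂ), IsOpen W → IsConnected W → Bornology.IsBounded W →
  IsConnected Wᶜ → z₀ ∈ W → ∃ ψ χ : ℂ → ℂ, DifferentiableOn ℂ ψ W ∧
    DifferentiableOn ℂ χ (ball 0 1) ∧ ψ z₀ = 0 ∧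
    (∀ z ∈ W, ψ z ∈ ball (0 : ℂ) 1 ∧ χ (ψ z) = z) ∧
    (∀ w ∈ ball (0 : ℂ) 1, χ w ∈ W ∧ ψ (χ w) = w)

/-- the interior of the filled Julia set is not empty -/
def S_nint : Prop := ∀ f : Polynomial ℂ, Hyp f → (interior (KK f)).Nonempty

/-- the basin of infinity seen from `1 / (z - z*)` -/
def Om (f : Polynomial ℂ) (z : ℂ) : Set ℂ := {ζ | ζ = 0 ∨ z + ζ⁻¹ ∉ KK f}

def S_domO : Prop := ∀ f : Polynomial ℂ, Bas f → IsConnected (JJ f) → ∀ z ∈ interior (KK f),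
  IsOpen (Om f z) ∧ IsConnected (Om f z) ∧ Bornology.IsBounded (Om f z) ∧
    IsConnected (Om f z)ᶜ

def S_domU : Prop := ∀ f : Polynomial ℂ, Bas f → ∀ U : Set ℂ, IsOpen U → IsConnected U →
  U ⊆ KK f → frontier U ⊆ JJ f → IsConnected Uᶜ

/-- proper self-maps of the disc with a single zero -/
def S_blaschke : Prop := ∀ (d : ℕ) (H : ℂ → ℂ), DifferentiableOn ℂ H (ball 0 1) →
  (∀ w ∈ ball (0 : ℂ) 1, H w ≠ 0) → (∀ w ∈ ball (0 : ℂ) 1, ‖w ^ d * H w‖ < 1) →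
  (∀ ε : ℝ, 0 < ε → ∃ ρ : ℝ, ρ < 1 ∧ ∀ w ∈ ball (0 : ℂ) 1, ρ < ‖w‖ → 1 - ε < ‖w ^ d * H w‖) →
  ∃ lam : ℂ, ‖lam‖ = 1 ∧ ∀ w ∈ ball (0 : ℂ) 1, H w = lam

def S_bott : Prop := ∀ f : Polynomial ℂ, Bas f → IsConnected (JJ f) →
  (interior (KK f)).Nonempty → ∃ Φ : ℂ → ℂ, Bott f Φ

def S_cara : Prop := ∀ (f : Polynomial ℂ) (r : ℝ) (Φ : ℂ → ℂ), Bas f → Ex f r → Bott f Φ →
  ∃ φ : ℝ → ℂ, Cara f Φ φ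

def S_bu : Prop := ∀ (f : Polynomial ℂ) (r : ℝ) (Φ : ℂ → ℂ) (φ : ℝ → ℂ), Bas f → Ex f r →
  Bott f Φ → Cara f Φ φ → BU f.natDegree φ ∧ LIFT (fun z => f.eval z) f.natDegree φ

/-- periodic points have finitely many angles, all periodic -/
def S_perang : Prop := ∀ (D : ℕ) (φ : ℝ → ℂ) (F : ℂ → ℂ), 2 ≤ D → Continuous φ →
  (∀ t, φ (t + 1) = φ t) → (∀ t, F (φ t) = φ (D * t)) → BU D φ → LIFT F D φ →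
  ∀ x ∈ Set.range φ, (∃ q : ℕ, 1 ≤ q ∧ F^[q] x = x) →
  ∃ N : ℕ, 1 ≤ N ∧ ∀ t, φ t = x → ∃ k : ℤ, (D : ℝ) ^ N * t = t + k

/-- separation by two rays landing at the same point -/
def S_sep : Prop := ∀ (f : Polynomial ℂ) (Φ : ℂ → ℂ) (φ : ℝ → ℂ), Bas f → Bott f Φ →
  Cara f Φ φ → ∀ (U : Set ℂ) (θ β θ' α : ℝ), IsPreconnected U → U ⊆ KK f → θ < β → β < θ' →
  θ' < α → α < θ + 1 → φ θ = φ θ' → φ θ ∉ U → φ α ∈ U → φ β ∈ U → False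

/-- all critical points are in the filled Julia set -/
def S_pcK : Prop := ∀ (f : Polynomial ℂ) (Φ : ℂ → ℂ), Bas f → Bott f Φ → PC f ⊆ KK f

/-- a periodic Fatou component -/
def S_per : Prop := ∀ f : Polynomial ℂ, Bas f → Hyp f → PC f ⊆ KK f →
  ∃ n : ℕ, 1 ≤ n ∧ ∃ U : Set ℂ, IsOpen U ∧ IsConnected U ∧ U ⊆ KK f ∧ frontier U ⊆ JJ f ∧
    ∀ z ∈ U, it f n z ∈ U

def S_ninj : Prop := ∀ (f : Polynomial ℂ) (r : ℝ) (U : Set ℂ), Bas f → Ex f r → IsOpen U →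
  IsConnected U → U ⊆ KK f → frontier U ⊆ JJ f → (∀ z ∈ U, f.eval z ∈ U) →
  ¬ Set.InjOn (fun z => f.eval z) U

def S_start : Prop := ∀ f : Polynomial ℂ, Hyp f → ∃ (F : Polynomial ℂ) (r : ℝ) (U : Set ℂ),
  KK F = KK f ∧ Dat F r U

def S_disc : Prop := ∀ (f : Polynomial ℂ) (r : ℝ) (U : Set ℂ), Bas f → Dat f r U →
  ∃ (p : ℂ) (ψ χ : ℂ → ℂ), Disc f U p ψ χ

def S_base : Prop := ∀ (f : Polynomial ℂ) (r : ℝ) (U : Set ℂ) (p : ℂ) (ψ χ : ℂ → ℂ), Bas f →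
  Dat f r U → Bornology.IsBounded (PC f) → Disc f U p ψ χ →
  ∃ (A : Set ℂ) (z₀ : ℂ) (z : Bool → ℂ) (c : Bool → ℝ → ℂ), Base f U A z₀ z c

/-- lifts of paths off the postcritical set under iterates -/
def S_pcl : Prop := ∀ f : Polynomial ℂ, 1 ≤ f.natDegree → ∀ (n : ℕ) (c : ℝ → ℂ),
  ContinuousOn c (Icc 0 1) → (∀ t ∈ Icc (0 : ℝ) 1, c t ∉ PC f) → ∀ z, it f n z = c 0 →
  ∃ γ : ℝ → ℂ, ContinuousOn γ (Icc 0 1) ∧ γ 0 = z ∧ (∀ t ∈ Icc (0 : ℝ) 1, it f n (γ t) = c t) ∧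
    ∀ γ' : ℝ → ℂ, ContinuousOn γ' (Icc 0 1) → (∀ t ∈ Icc (0 : ℝ) 1, it f n (γ' t) = c t) →
      (∃ t₀ ∈ Icc (0 : ℝ) 1, γ' t₀ = γ t₀) → ∀ t ∈ Icc (0 : ℝ) 1, γ' t = γ t

def S_tree : Prop := ∀ (f : Polynomial ℂ) (r : ℝ) (U A : Set ℂ) (z₀ : ℂ) (z : Bool → ℂ)
  (c : Bool → ℝ → ℂ), Bas f → Dat f r U → Base f U A z₀ z c →
  ∃ Z : (ℕ → Bool) → ℂ, Tree f U Z

def S_code : Prop := ∀ (f : Polynomial ℂ) (U : Set ℂ) (Z : (ℕ → Bool) → ℂ),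
  (∀ x ∈ frontier U, f.derivative.eval x ≠ 0) → Tree f U Z →
  Set.Infinite {x : ℂ | x ∈ frontier U ∧ ∃ q : ℕ, 1 ≤ q ∧ it f q x = x}

def S_pair : Prop := ∀ (f : Polynomial ℂ) (r : ℝ) (U : Set ℂ) (Φ : ℂ → ℂ) (φ : ℝ → ℂ), Bas f →
  Dat f r U → Bott f Φ → Cara f Φ φ →
  Set.Infinite {x : ℂ | x ∈ frontier U ∧ ∃ q : ℕ, 1 ≤ q ∧ it f q x = x} →
  ∃ (F : Polynomial ℂ) (α β : ℝ), KK F = KK f ∧ Fin0 F r φ α β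

def S_psi : Prop := ∀ (F : Polynomial ℂ) (r : ℝ) (φ : ℝ → ℂ) (α β : ℝ), Fin0 F r φ α β →
  ∃ ψ₀ ψ₁ : ℂ → ℂ, Psi F r φ α β ψ₀ ψ₁

def S_satT : Prop := ∀ (F : Polynomial ℂ) (r : ℝ) (φ : ℝ → ℂ) (α β : ℝ) (ψ₀ ψ₁ : ℂ → ℂ),
  Fin0 F r φ α β → Psi F r φ α β ψ₀ ψ₁ → ∀ s t : ℝ, α ≤ s → s < t → t ≤ β → Sat φ s t →
  Sat φ (α + (s - α) / F.natDegree) (α + (t - α) / F.natDegree) ∧
  Sat φ (β - (β - s) / F.natDegree) (β - (β - t) / F.natDegree)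

/-- distortion of the iterates of a contracting germ -/
def S_dist : Prop := ∀ (ψ : ℂ → ℂ) (a : ℂ) (r : ℝ), 0 < r → DifferentiableOn ℂ ψ (ball a r) →
  (∀ u ∈ ball a r, ∀ v ∈ ball a r, dist (ψ u) (ψ v) ≤ dist u v / 2) → ψ a = a →
  deriv ψ a ≠ 0 → ∃ ρ : ℝ, 0 < ρ ∧ ρ < r ∧ ∃ c : ℝ, 0 < c ∧ ∃ C : ℝ, 0 < C ∧
    ∀ (n : ℕ), ∀ u ∈ ball a ρ, ∀ v ∈ ball a ρ,
      c * ‖deriv ψ a‖ ^ n * dist u v ≤ dist (ψ^[n] u) (ψ^[n] v) ∧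
      dist (ψ^[n] u) (ψ^[n] v) ≤ C * ‖deriv ψ a‖ ^ n * dist u v

def S_LTab : Prop := ∀ (F : Polynomial ℂ) (r : ℝ) (φ : ℝ → ℂ) (α β : ℝ) (ψ₀ ψ₁ : ℂ → ℂ),
  Fin0 F r φ α β → Psi F r φ α β ψ₀ ψ₁ →
  LT (arc φ α β) (arc φ β (α + 1)) (φ α) ∧ LT (arc φ α β) (arc φ β (α + 1)) (φ β)

/-- transport of linear transversality to the copies of the arc -/
def S_LTt : Prop := ∀ (F : Polynomial ℂ) (r : ℝ) (φ : ℝ → ℂ) (α β : ℝ), Fin0 F r φ α β →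
  LT (arc φ α β) (arc φ β (α + 1)) (φ α) → LT (arc φ α β) (arc φ β (α + 1)) (φ β) →
  ∀ (n : ℕ) (σ τ s t : ℝ), τ = σ + (β - α) / (F.natDegree : ℝ) ^ n →
  (∃ k : ℤ, (F.natDegree : ℝ) ^ n * σ = α + k) → Sat φ σ τ →
  (∀ u ∈ Icc s t, ∀ k : ℤ, u + k ∉ Ioo σ τ) →
  LT (arc φ σ τ) (arc φ s t) (φ σ) ∧ LT (arc φ σ τ) (arc φ s t) (φ τ)

/-- from local to global transversality -/
def S_tr : Prop := ∀ A B : Set ℂ, IsCompact A → IsCompact B → (∀ q ∈ A ∩ B, LT A B q) → Tr A B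

/-- glueing -/
def S_glue : Prop := ∀ (J : Set ℂ) (n : ℕ) (A A' : Fin n → Set ℂ) (h g : Fin n → ℂ → ℂ),
  IsCompact J → (⋃ i, A i) = J → (⋃ i, A' i) = J →
  (∀ i, MapsTo (h i) (A i) (A' i)) → (∀ i, MapsTo (g i) (A' i) (A i)) →
  (∀ i, ∀ x ∈ A i, g i (h i x) = x) → (∀ i, ∀ y ∈ A' i, h i (g i y) = y) →
  (∃ L : ℝ, ∀ i, (∀ x ∈ A i, ∀ y ∈ A i, dist (h i x) (h i y) ≤ L * dist x y) ∧
    ∀ x ∈ A' i, ∀ y ∈ A' i, dist (g i x) (g i y) ≤ L * dist x y) →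
  (∀ i j, ∀ x ∈ A i ∩ A j, h i x = h j x) → (∀ i j, ∀ x ∈ A' i ∩ A' j, g i x = g j x) →
  (∀ i j, i < j → Tr (A i) (A j)) → (∀ i j, i < j → Tr (A' i) (A' j)) →
  ∃ (Ψ : J ≃ₜ J) (L : ℝ), 1 ≤ L ∧ (∀ x y : J, dist (Ψ x) (Ψ y) ≤ L * dist x y ∧
    dist x y ≤ L * dist (Ψ x) (Ψ y)) ∧ ∀ i, ∀ x : J, (x : ℂ) ∈ A i → ((Ψ x : J) : ℂ) = h i x

/-- a cyclic chain of four arcs -/
structure Chain (φ : ℝ → ℂ) (α β σ τ : ℝ) : Prop where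
  i01 : ∀ x ∈ arc φ β (α + 1) ∩ arc φ α σ, x = φ α
  i12 : ∀ x ∈ arc φ α σ ∩ arc φ σ τ, x = φ σ
  i23 : ∀ x ∈ arc φ σ τ ∩ arc φ τ β, x = φ τ
  i03 : ∀ x ∈ arc φ β (α + 1) ∩ arc φ τ β, x = φ β
  i02 : arc φ β (α + 1) ∩ arc φ σ τ = ∅
  i13 : arc φ α σ ∩ arc φ τ β = ∅
  t01 : Tr (arc φ β (α + 1)) (arc φ α σ)
  t02 : Tr (arc φ β (α + 1)) (arc φ σ τ)
  t03 : Tr (arc φ β (α + 1)) (arc φ τ β)
  t12 : Tr (arc φ α σ) (arc φ σ τ)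
  t13 : Tr (arc φ α σ) (arc φ τ β)
  t23 : Tr (arc φ σ τ) (arc φ τ β)

def S_chain : Prop := ∀ (F : Polynomial ℂ) (r : ℝ) (φ : ℝ → ℂ) (α β : ℝ), Fin0 F r φ α β →
  LT (arc φ α β) (arc φ β (α + 1)) (φ α) → LT (arc φ α β) (arc φ β (α + 1)) (φ β) →
  ∀ (n : ℕ) (σ τ : ℝ), α < σ → σ < τ → τ < β → τ = σ + (β - α) / (F.natDegree : ℝ) ^ n →
  (∃ k : ℤ, (F.natDegree : ℝ) ^ n * σ = α + k) → Sat φ σ τ → (Sat φ α τ ∨ Sat φ σ β) →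
  Chain φ α β σ τ

/-- the partial homeomorphisms -/
def S_maps : Prop := ∀ (F : Polynomial ℂ) (r : ℝ) (φ : ℝ → ℂ) (α β : ℝ) (ψ₀ ψ₁ : ℂ → ℂ),
  Fin0 F r φ α β → Psi F r φ α β ψ₀ ψ₁ → ∀ (D s₁ s₂ p₁ p₂ : ℝ), D = F.natDegree →
  s₁ = α + ((β - α) - (β - α) / D) / D → s₂ = α + (β - α) / D →
  p₁ = β - (β - α) / D → p₂ = β - ((β - α) - (β - α) / D) / D →
  (∀ t ∈ Icc α s₁, F.eval (φ t) = φ (α + D * (t - α))) ∧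
  (∀ t ∈ Icc s₁ s₂, ψ₁ (ψ₀ (F.eval (F.eval (φ t)))) = φ (p₁ + (t - s₁))) ∧
  (∀ t ∈ Icc s₂ β, ψ₁ (φ t) = φ (β - (β - t) / D)) ∧
  (∀ t ∈ Icc α p₁, ψ₀ (φ t) = φ (α + (t - α) / D)) ∧
  (∀ t ∈ Icc p₁ p₂, ψ₀ (ψ₁ (F.eval (F.eval (φ t)))) = φ (s₁ + (t - p₁))) ∧
  (∀ t ∈ Icc p₂ β, F.eval (φ t) = φ (β - D * (β - t))) ∧
  ∃ L : ℝ, 1 ≤ L ∧ (∀ x ∈ JJ F, ∀ y ∈ JJ F, dist (F.eval x) (F.eval y) ≤ L * dist x y) ∧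
    (∀ x ∈ arc φ α β, ∀ y ∈ arc φ α β, dist (ψ₀ x) (ψ₀ y) ≤ L * dist x y) ∧
    (∀ x ∈ arc φ α β, ∀ y ∈ arc φ α β, dist (ψ₁ x) (ψ₁ y) ≤ L * dist x y) ∧
    (∀ x ∈ arc φ s₁ s₂, ∀ y ∈ arc φ s₁ s₂,
      dist (ψ₁ (ψ₀ (F.eval (F.eval x)))) (ψ₁ (ψ₀ (F.eval (F.eval y)))) ≤ L * dist x y) ∧
    (∀ x ∈ arc φ p₁ p₂, ∀ y ∈ arc φ p₁ p₂,
      dist (ψ₀ (ψ₁ (F.eval (F.eval x)))) (ψ₀ (ψ₁ (F.eval (F.eval y)))) ≤ L * dist x y)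

def S_main : Prop := ∀ (F : Polynomial ℂ) (r : ℝ) (φ : ℝ → ℂ) (α β : ℝ) (ψ₀ ψ₁ : ℂ → ℂ),
  Fin0 F r φ α β → Psi F r φ α β ψ₀ ψ₁ →
  ∃ (Ψ : JJ F ≃ₜ JJ F) (L : ℝ), 1 ≤ L ∧ (∀ x y : JJ F, dist (Ψ x) (Ψ y) ≤ L * dist x y ∧
    dist x y ≤ L * dist (Ψ x) (Ψ y)) ∧
    ∀ k : ℕ, 1 ≤ k → ∃ x : JJ F, (fun y : JJ F => Ψ y)^[k] x ≠ x

def S_fin : Prop := ∀ (J : Set ℂ) (Ψ : J ≃ₜ J) (L : ℝ), 1 ≤ L →
  (∀ x y : J, dist (Ψ x) (Ψ y) ≤ L * dist x y ∧ dist x y ≤ L * dist (Ψ x) (Ψ y)) →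
  (∀ k : ℕ, 1 ≤ k → ∃ x : J, (fun y : J => Ψ y)^[k] x ≠ x) →
  ¬ Set.Finite {h : J ≃ₜ J | ∃ η : ℝ → ℝ, η 0 = 0 ∧
    StrictMonoOn η (Set.Ici 0) ∧ ContinuousOn η (Set.Ici 0) ∧ Tendsto η atTop atTop ∧
    ∀ a x y : J, y ≠ a →
      dist (h x) (h a) ≤ η (dist x a / dist y a) * dist (h y) (h a)}

end Pool.Agent.W363.JQ
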