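import Pool.Agent.W363.JQ.Stm

set_option autoImplicit false
open Filter Topology Set Metric

namespace Pool.Agent.W363.JQ

/-- a preconnected set meeting an open set whose frontier it avoids is contained in it -/
theorem sub_of_frontier {W V : Set ℂ} (hW : IsPreconnected W) (hV : IsOpen V)
    (h1 : (W ∩ V).Nonempty) (h2 : Disjoint W (frontier V)) : W ⊆ V := by
  intro w hw
  by_contra hwV
  have hcl : W ⊆ V ∪ (closure V)ᶜ := by
    intro x hx
    by_cases hxV : x ∈ closure V
    · left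
      by_contra hxn
      have : x ∈ frontier V := by
        rw [frontier, hV.interior_eq]; exact ⟨hxV, hxn⟩
      exact Set.disjoint_left.1 h2 hx this
    · right; exact hxV
  obtain ⟨z, -, hz1, hz2⟩ := hW V (closure V)ᶜ hV isClosed_closure.isOpen_compl hcl h1 ⟨w, hw,
    (hcl hw).resolve_left hwV⟩
  exact hz2 (subset_closure hz1)

theorem frontier_compIn {O : Set ℂ} (hO : IsOpen O) (z : ℂ) :
    Disjoint O (frontier (connectedComponentIn O z)) := by
  rw [Set.disjoint_left]
  intro y hy hyf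
  have hWo : IsOpen (connectedComponentIn O z) := hO.connectedComponentIn
  have hcl : y ∈ closure (connectedComponentIn O z) := frontier_subset_closure hyf
  have hyW : y ∉ connectedComponentIn O z := by
    rw [frontier, hWo.interior_eq] at hyf; exact hyf.2
  have hW' : IsOpen (connectedComponentIn O y) := hO.connectedComponentIn
  obtain ⟨u, hu1, hu2⟩ := mem_closure_iff.1 hcl _ hW' (mem_connectedComponentIn hy)
  rw [connectedComponentIn_eq hu2, ← connectedComponentIn_eq hu1] at hyW
  exact hyW (mem_connectedComponentIn hy)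

theorem comp : S_comp := by
  intro Γ V hΓ hΓc hV hVc hd hf
  obtain ⟨x, hx⟩ := hΓc.nonempty
  have hΓV : Γ ⊆ Vᶜ := fun y hy hyV => Set.disjoint_left.1 hd hyV hy
  refine ⟨⟨x, hΓV hx⟩, isPreconnected_of_forall x ?_⟩
  intro z hz
  by_cases hzΓ : z ∈ Γ
  · exact ⟨Γ, hΓV, hx, hzΓ, hΓc.isPreconnected⟩
  have hO : IsOpen Γᶜ := hΓ.isOpen_compl
  set W := connectedComponentIn Γᶜ z with hW
  have hWo : IsOpen W := hO.connectedComponentIn
  have hzW : z ∈ W := mem_connectedComponentIn hzΓ
  have hWpc : IsPreconnected W := isPreconnected_connectedComponentIn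
  have hWΓ : W ⊆ Γᶜ := connectedComponentIn_subset _ _
  have hWf : frontier W ⊆ Γ := by
    intro y hy
    by_contra hyn
    exact Set.disjoint_left.1 (frontier_compIn hO z) hyn hy
  have hWV : Disjoint W V := by
    rw [Set.disjoint_iff_inter_eq_empty]
    by_contra hne
    have h1 : (W ∩ V).Nonempty := Set.nonempty_iff_ne_empty.2 hne
    have h2 : Disjoint W (frontier V) := by
      rw [Set.disjoint_left]; intro y hy hyf; exact hWΓ hy (hf hyf)
    exact hz (sub_of_frontier hWpc hV h1 h2 hzW)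
  have hclV : closure W ⊆ Vᶜ := by
    intro y hy hyV
    obtain ⟨u, hu1, hu2⟩ := mem_closure_iff.1 hy V hV hyV
    exact Set.disjoint_left.1 hWV hu2 hu1
  have hfn : (frontier W).Nonempty := by
    rw [nonempty_frontier_iff]
    refine ⟨⟨z, hzW⟩, fun h => ?_⟩
    have : x ∈ W := by rw [h]; trivial
    exact hWΓ this hx
  obtain ⟨y, hy⟩ := hfn
  refine ⟨Γ ∪ closure W, union_subset hΓV hclV, Or.inl hx, Or.inr (subset_closure hzW), ?_⟩
  exact IsPreconnected.union y (hWf hy) (frontier_subset_closure hy) hΓc.isPreconnected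
    hWpc.closure

theorem domU (h : S_comp) : S_domU := by
  intro f hB U hUo hUc hUK hUf
  have hsub : U ⊆ interior (KK f) := interior_maximal hUK hUo
  have e : closure (KK f)ᶜ = (interior (KK f))ᶜ := closure_compl
  refine h (closure (KK f)ᶜ) U isClosed_closure ?_ hUo hUc ?_ ?_
  · exact ⟨hB.cconn.nonempty.closure, hB.cconn.isPreconnected.closure⟩
  · rw [e, Set.disjoint_left]; exact fun y hy hn => hn (hsub hy)
  · intro y hy
    have h1 : y ∈ frontier (KK f)ᶜ := by rw [frontier_compl]; exact hUf hy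
    exact frontier_subset_closure h1

theorem domO (h : S_comp) : S_domO := by
  intro f hB hJ z hz
  have hKc : IsClosed (KK f) := hB.cpt.isClosed
  have hzK : z ∈ KK f := interior_subset hz
  obtain ⟨ε, hε, hball⟩ := Metric.isOpen_iff.1 isOpen_interior z hz
  obtain ⟨B, hBb⟩ := hB.cpt.isBounded.exists_norm_le
  have hB0 : 0 ≤ B := (norm_nonneg _).trans (hBb z hzK)
  -- a punctured ball around 0 is in Om
  have hbig : ∀ w : ℂ, B < ‖w‖ → w ∉ KK f := fun w hw hwK => absurd (hBb w hwK) (not_le.2 hw)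
  have hnear : ∀ ζ : ℂ, ‖ζ‖ < 1 / (B + ‖z‖ + 1) → ζ ∈ Om f z := by
    intro ζ hζ
    by_cases h0 : ζ = 0
    · exact Or.inl h0
    right
    apply hbig
    have hpos : 0 < ‖ζ‖ := norm_pos_iff.2 h0
    have h1 : B + ‖z‖ + 1 < ‖ζ⁻¹‖ := by
      rw [norm_inv]
      have hp : 0 < B + ‖z‖ + 1 := by positivity
      rw [lt_inv_comm₀ hp hpos, ← one_div]; exact hζ
    have h2 : ‖ζ⁻¹‖ ≤ ‖z + ζ⁻¹‖ + ‖z‖ := by
      have := norm_sub_le (z + ζ⁻¹) z
      simpa using this
    linarith
  have hopen : IsOpen (Om f z) := by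
    rw [isOpen_iff_mem_nhds]
    intro ζ hζ
    by_cases h0 : ζ = 0
    · subst h0
      have : ball (0 : ℂ) (1 / (B + ‖z‖ + 1)) ∈ 𝓝 (0 : ℂ) := ball_mem_nhds _ (by positivity)
      filter_upwards [this] with y hy
      exact hnear y (by simpa using hy)
    · have h1 : z + ζ⁻¹ ∉ KK f := hζ.resolve_left h0
      have hc : ContinuousAt (fun y : ℂ => z + y⁻¹) ζ :=
        continuousAt_const.add (continuousAt_inv₀ h0)
      have := hc.preimage_mem_nhds (hKc.isOpen_compl.mem_nhds h1)
      filter_upwards [this] with y hy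
      exact Or.inr hy
  have hbdd : Bornology.IsBounded (Om f z) := by
    refine (Metric.isBounded_closedBall (x := (0 : ℂ)) (r := 1 / ε)).subset ?_
    intro ζ hζ
    rw [mem_closedBall_zero_iff]
    by_cases h0 : ζ = 0
    · subst h0; simp; positivity
    have h1 : z + ζ⁻¹ ∉ KK f := hζ.resolve_left h0
    have h2 : ε ≤ ‖ζ⁻¹‖ := by
      by_contra hlt
      apply h1
      apply interior_subset
      apply hball
      rw [mem_ball, dist_eq_norm]
      simpa using not_le.1 hlt
    have hpos : 0 < ‖ζ‖ := norm_pos_iff.2 h0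
    rw [norm_inv] at h2
    rw [one_div]
    exact (le_inv_comm₀ hε hpos).1 h2
  -- image of the basin
  have himg : (fun w : ℂ => (w - z)⁻¹) '' (KK f)ᶜ = Om f z \ {0} := by
    ext ζ
    constructor
    · rintro ⟨w, hw, rfl⟩
      have hne : w - z ≠ 0 := fun h => hw (by rw [sub_eq_zero.1 h]; exact hzK)
      refine ⟨Or.inr ?_, inv_ne_zero hne⟩
      simp only [inv_inv]
      rw [add_sub_cancel]; exact hw
    · rintro ⟨h1, h2⟩
      refine ⟨z + ζ⁻¹, h1.resolve_left h2, by simp⟩
  have hconn0 : IsConnected (Om f z \ {0}) := by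
    rw [← himg]
    refine hB.cconn.image _ ?_
    refine ContinuousOn.inv₀ (by fun_prop) (fun w hw h => hw ?_)
    rw [sub_eq_zero.1 h]; exact hzK
  have h0cl : (0 : ℂ) ∈ closure (Om f z \ {0}) := by
    rw [Metric.mem_closure_iff]
    intro η hη
    set t : ℝ := min (η / 2) (1 / (B + ‖z‖ + 1) / 2) with ht
    have htp : 0 < t := lt_min (by linarith) (by positivity)
    refine ⟨(t : ℂ), ⟨hnear _ ?_, by simpa using htp.ne'⟩, ?_⟩
    · rw [Complex.norm_real, Real.norm_eq_abs, abs_of_pos htp]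
      have h1 : t ≤ 1 / (B + ‖z‖ + 1) / 2 := min_le_right _ _
      have : 0 < 1 / (B + ‖z‖ + 1) := by positivity
      linarith
    · rw [dist_comm, dist_zero_right, Complex.norm_real, Real.norm_eq_abs, abs_of_pos htp]
      have h1 : t ≤ η / 2 := min_le_left _ _
      linarith
  have hconn : IsConnected (Om f z) := by
    refine ⟨⟨0, Or.inl rfl⟩, hconn0.isPreconnected.subset_closure diff_subset ?_⟩
    intro ζ hζ
    by_cases h0 : ζ = 0
    · rw [h0]; exact h0cl
    · exact subset_closure ⟨hζ, h0⟩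
  refine ⟨hopen, hconn, hbdd, ?_⟩
  -- complement
  have hzJ : z ∉ JJ f := fun hzJ => hzJ.2 hz
  have hcont : ContinuousOn (fun w : ℂ => (w - z)⁻¹) (JJ f) :=
    ContinuousOn.inv₀ (by fun_prop) (fun w hw h => hzJ (by rw [← sub_eq_zero.1 h]; exact hw))
  refine h ((fun w : ℂ => (w - z)⁻¹) '' JJ f) (Om f z) (hB.jcpt.image_of_continuousOn hcont).isClosed
    (hJ.image _ hcont) hopen hconn ?_ ?_
  · rw [Set.disjoint_left]
    rintro ζ hζ ⟨w, hw, rfl⟩
    have hne : w - z ≠ 0 := fun h => hzJ (by rw [← sub_eq_zero.1 h]; exact hw)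
    rcases hζ with h1 | h1
    · exact inv_ne_zero hne h1
    · simp only [inv_inv] at h1
      rw [add_sub_cancel] at h1
      exact h1 (hB.jsub hw)
  · intro ζ hζ
    have hcl : ζ ∈ closure (Om f z) := frontier_subset_closure hζ
    have hn : ζ ∉ Om f z := by
      rw [frontier, hopen.interior_eq] at hζ; exact hζ.2
    have h0 : ζ ≠ 0 := fun h => hn (Or.inl h)
    have hK : z + ζ⁻¹ ∈ KK f := by
      by_contra hc; exact hn (Or.inr hc)
    refine ⟨z + ζ⁻¹, ?_, by simp⟩
    have hcl' : z + ζ⁻¹ ∈ closure (KK f)ᶜ := by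
      rw [mem_closure_iff_nhds]
      intro t ht
      have hc : ContinuousAt (fun y : ℂ => z + y⁻¹) ζ :=
        continuousAt_const.add (continuousAt_inv₀ h0)
      have h1 := hc.preimage_mem_nhds ht
      have h2 : ({0}ᶜ : Set ℂ) ∈ 𝓝 ζ := isOpen_compl_singleton.mem_nhds h0
      obtain ⟨y, ⟨hy1, hy2⟩, hy3⟩ := mem_closure_iff_nhds.1 hcl _ (inter_mem h1 h2)
      exact ⟨z + y⁻¹, hy1, hy3.resolve_left hy2⟩
    rw [closure_compl] at hcl'
    exact ⟨subset_closure hK, hcl'⟩

end Pool.Agent.W363.JQ
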