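import Pool.Agent.W363.JQ.Start
import Pool.Agent.H712R2.Cover

set_option autoImplicit false
open Filter Topology Set Metric

namespace Pool.Agent.W363.JQ

theorem it_succ (f : Polynomial ℂ) (n : ℕ) (z : ℂ) : it f (n + 1) z = f.eval (it f n z) := by
  unfold it; rw [Function.iterate_succ_apply']

theorem it_diff (f : Polynomial ℂ) (n : ℕ) : Differentiable ℂ (it f n) := by
  induction n with
  | zero => exact differentiable_id
  | succ n ih =>
    have : it f (n + 1) = (fun w => f.eval w) ∘ it f n := by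
      funext z; exact it_succ f n z
    rw [this]
    exact f.differentiable.comp ih

theorem deriv_it_succ (f : Polynomial ℂ) (n : ℕ) (z : ℂ) :
    deriv (it f (n + 1)) z = f.derivative.eval (it f n z) * deriv (it f n) z := by
  have : it f (n + 1) = (fun w => f.eval w) ∘ it f n := by
    funext z; exact it_succ f n z
  rw [this, deriv_comp z f.differentiable.differentiableAt (it_diff f n z)]
  congr 1
  exact f.deriv

theorem crit_it (f : Polynomial ℂ) (n : ℕ) (z : ℂ) (h : deriv (it f n) z = 0) :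
    ∃ i < n, f.derivative.eval (it f i z) = 0 := by
  induction n with
  | zero =>
    exfalso
    have : deriv (it f 0) z = 1 := by
      show deriv (fun x => x) z = 1
      simp
    rw [this] at h; exact one_ne_zero h
  | succ n ih =>
    rw [deriv_it_succ] at h
    rcases mul_eq_zero.1 h with h | h
    · exact ⟨n, n.lt_succ_self, h⟩
    · obtain ⟨i, hi, h'⟩ := ih h
      exact ⟨i, by omega, h'⟩

theorem cv_mem_PC (f : Polynomial ℂ) (n : ℕ) (z : ℂ) (h : deriv (it f n) z = 0) :
    it f n z ∈ PC f := by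
  obtain ⟨i, hi, h'⟩ := crit_it f n z h
  apply subset_closure
  refine mem_iUnion₂.2 ⟨it f i z, h', ⟨n - i, ?_⟩⟩
  show (fun w : ℂ => f.eval w)^[n - i] ((fun w : ℂ => f.eval w)^[i] z) = _
  rw [← Function.iterate_add_apply]
  congr 2
  omega

theorem it_invJ {f : Polynomial ℂ} (hB : Bas f) (n : ℕ) (z : ℂ) : it f n z ∈ JJ f ↔ z ∈ JJ f := by
  induction n with
  | zero => exact Iff.rfl
  | succ n ih => rw [it_succ, hB.invJ, ih]

/-- the iterates of `f` leave: uniform escape near the Julia set -/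
theorem escape_near {f : Polynomial ℂ} (hB : Bas f) (M δ : ℝ) (hδ : 0 < δ) :
    ∃ n₀ : ℕ, ∀ n, n₀ ≤ n → ∀ y ∈ JJ f, ∃ z, dist z y < δ ∧ M ≤ ‖it f n z‖ := by
  refine hB.jcpt.induction_on (p := fun S => ∃ n₀ : ℕ, ∀ n, n₀ ≤ n → ∀ y ∈ S,
    ∃ z, dist z y < δ ∧ M ≤ ‖it f n z‖) ⟨0, by simp⟩ ?_ ?_ ?_
  · rintro s t hst ⟨n0, h⟩
    exact ⟨n0, fun n hn y hy => h n hn y (hst hy)⟩
  · rintro s t ⟨n0, h⟩ ⟨n1, h'⟩
    refine ⟨max n0 n1, fun n hn y hy => ?_⟩
    rcases hy with hy | hy
    · exact h n ((le_max_left _ _).trans hn) y hy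
    · exact h' n ((le_max_right _ _).trans hn) y hy
  · intro y hy
    have hcl : y ∈ closure (KK f)ᶜ := by
      have : y ∈ frontier (KK f)ᶜ := by rw [frontier_compl]; exact hy
      exact frontier_subset_closure this
    obtain ⟨z, hz, hzy⟩ := Metric.mem_closure_iff.1 hcl (δ / 2) (by linarith)
    have he := (hB.esc z hz).eventually_ge_atTop M
    obtain ⟨n0, hn0⟩ := eventually_atTop.1 he
    refine ⟨ball y (δ / 2), mem_nhdsWithin_of_mem_nhds (ball_mem_nhds y (by linarith)), n0,
      fun n hn y' hy' => ⟨z, ?_, hn0 n hn⟩⟩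
    rw [mem_ball] at hy'
    have := dist_triangle z y y'
    rw [dist_comm] at hzy
    rw [dist_comm y y'] at this
    linarith

theorem exp0 (h1 : S_basic) (h2 : S_hypiter) (h3 : S_branch) : S_exp := by
  intro f hf
  have hB : Bas f := h1 f hf.deg
  have hPCc : IsClosed (PC f) := isClosed_closure
  -- radius r1
  obtain ⟨r1, hr1, hr1', hdisj⟩ : ∃ r1 : ℝ, 0 < r1 ∧ r1 ≤ 1 ∧ ∀ x ∈ JJ f, ∀ u ∈ ball x r1, u ∉ PC f := by
    obtain ⟨r, hr, h⟩ := Metric.exists_pos_forall_lt_edist hB.jcpt hPCc hf.disj.symm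
    refine ⟨min (r : ℝ) 1, lt_min (by exact_mod_cast hr) one_pos, min_le_right _ _,
      fun x hx u hu hup => ?_⟩
    have h' := h x hx u hup
    rw [mem_ball, dist_comm] at hu
    have h3 : dist x u < r := lt_of_lt_of_le hu (min_le_left _ _)
    rw [edist_dist] at h'
    have h4 : ENNReal.ofReal (dist x u) ≤ (r : ENNReal) := by
      rw [← ENNReal.ofReal_coe_nnreal]
      exact ENNReal.ofReal_le_ofReal h3.le
    exact absurd h' (not_lt.2 h4)
  -- bound M
  obtain ⟨R0, hR0, hbig⟩ := hB.big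
  obtain ⟨B, hBb⟩ := hB.jcpt.isBounded.exists_norm_le
  obtain ⟨M, hMR0, hMB⟩ : ∃ M : ℝ, R0 ≤ M ∧ B + 1 < M :=
    ⟨max R0 (B + 2), le_max_left _ _, lt_of_lt_of_le (by linarith) (le_max_right _ _)⟩
  have hM : 0 < M := lt_of_lt_of_le hR0 hMR0
  have hgrow : ∀ (n : ℕ) (z : ℂ), M ≤ ‖z‖ → M ≤ ‖it f n z‖ := by
    intro n
    induction n with
    | zero => intro z hz; exact hz
    | succ n ih =>
      intro z hz
      have h5 := ih z hz
      rw [it_succ]
      have h6 := hbig (it f n z) (hMR0.trans h5)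
      linarith
  have hbM : ∀ x ∈ JJ f, ∀ u ∈ ball x r1, ‖u‖ < M := by
    intro x hx u hu
    have h5 := hBb x hx
    rw [mem_ball, dist_eq_norm] at hu
    have h6 : ‖u‖ ≤ ‖u - x‖ + ‖x‖ := by
      have := norm_add_le (u - x) x; simpa using this
    linarith
  have hgM : ∀ (n : ℕ), ∀ x ∈ JJ f, ∀ g : ℂ → ℂ, (∀ u ∈ ball x r1, it f n (g u) = u) →
      ∀ u ∈ ball x r1, ‖g u‖ < M := by
    intro n x hx g hg u hu
    by_contra hcon
    have h5 := hgrow n (g u) (not_lt.1 hcon)
    rw [hg u hu] at h5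
    exact absurd (hbM x hx u hu) (not_lt.2 h5)
  -- derivative at centre
  obtain ⟨δ, hδ, hcov⟩ := Pool.Agent.H712R2.Cremer.cover_ball (R := r1) (M := 8 * M + 1) hr1
    (by linarith)
  obtain ⟨n0, hn0⟩ := escape_near hB M (δ / 4) (by linarith)
  have hder : ∀ n, n0 ≤ n → ∀ x ∈ JJ f, ∀ g : ℂ → ℂ, DifferentiableOn ℂ g (ball x r1) →
      (∀ u ∈ ball x r1, it f n (g u) = u) → ‖deriv g x‖ < 1 / 4 := by
    intro n hn x hx g hg hinv
    by_contra hcon
    have hcon' : 1 / 4 ≤ ‖deriv g x‖ := not_lt.1 hcon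
    have hne : deriv g x ≠ 0 := by
      intro h; rw [h] at hcon'; simp at hcon'; linarith
    have hpos : 0 < ‖deriv g x‖ := norm_pos_iff.2 hne
    have hxm : x ∈ ball x r1 := mem_ball_self hr1
    have hgx : g x ∈ JJ f := by
      rw [← it_invJ hB n, hinv x hxm]; exact hx
    obtain ⟨z, hz, hzM⟩ := hn0 n hn (g x) hgx
    set F : ℂ → ℂ := fun u => (g u - g x) / deriv g x with hF
    have hFd : DifferentiableOn ℂ F (ball x r1) := (hg.sub_const _).div_const _
    have hF0 : F x = 0 := by simp [hF]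
    have hFder : deriv F x = 1 := by
      have : HasDerivAt F (deriv g x / deriv g x) x :=
        ((hg.differentiableAt (ball_mem_nhds x hr1)).hasDerivAt.sub_const _).div_const _
      rw [this.deriv, div_self hne]
    have hFmap : MapsTo F (ball x r1) (ball 0 (8 * M + 1)) := by
      intro u hu
      rw [mem_ball_zero_iff, hF]
      simp only [norm_div]
      rw [div_lt_iff₀ hpos]
      have a1 := hgM n x hx g hinv u hu
      have a2 := hgM n x hx g hinv x hxm
      have a3 := norm_sub_le (g u) (g x)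
      nlinarith
    have hsub := hcov x 0 F hFd hFmap hF0 (by rw [hFder]; simp)
    have hzin : (z - g x) / deriv g x ∈ ball (0 : ℂ) δ := by
      rw [mem_ball_zero_iff, norm_div, div_lt_iff₀ hpos]
      rw [dist_eq_norm] at hz
      nlinarith
    obtain ⟨u, hu, hue⟩ := hsub hzin
    have hzu : z = g u := by
      have : (g u - g x) / deriv g x = (z - g x) / deriv g x := hue
      rw [div_left_inj' hne] at this
      linear_combination -this
    rw [hzu, hinv u hu] at hzM
    exact absurd (hbM x hx u hu) (not_lt.2 hzM)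
  -- choose n and F
  obtain ⟨F, hFe, hFdeg, hKF, hHF⟩ := h2 f hf (n0 + 1) (by omega)
  have hJF : JJ F = JJ f := by unfold JJ; rw [hKF]
  have hFe' : (fun z => F.eval z) = it f (n0 + 1) := funext hFe
  -- Lipschitz
  set M1 : ℝ := M / (r1 / 2) with hM1
  have hM1p : 0 < M1 := by rw [hM1]; positivity
  set c : ℝ := 2 * M1 / (r1 / 2) with hc
  have hcp : 0 < c := by rw [hc]; positivity
  set r : ℝ := min (r1 / 2) (1 / (4 * c)) with hr
  have hrp : 0 < r := by rw [hr]; exact lt_min (by linarith) (by positivity)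
  have hrr : r ≤ r1 / 2 := min_le_left _ _
  have hrr' : r ≤ 1 / (4 * c) := min_le_right _ _
  refine ⟨F, r, hKF, hHF, hrp, fun x hx w hw z hz => ?_⟩
  rw [hJF] at hx
  have hCV : ∀ u ∈ ball x r1, CVfree F (id u) := by
    intro u hu z' hz' he
    have h5 : deriv (it f (n0 + 1)) z' = 0 := by
      rw [← hFe', F.deriv]; exact hz'
    have h6 := cv_mem_PC f (n0 + 1) z' h5
    rw [← hFe z', he] at h6
    exact hdisj x hx u hu h6
  have hwb : w ∈ ball x r1 := ball_subset_ball (by linarith) hw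
  obtain ⟨g, hg1, hg2, hg3⟩ := h3 F (by have := hHF.deg; omega) x r1 id differentiableOn_id hCV w hwb z hz
  have hinv : ∀ u ∈ ball x r1, it f (n0 + 1) (g u) = u := fun u hu => by
    rw [← hFe]; exact hg3 u hu
  have hsub : ball x r ⊆ ball x r1 := ball_subset_ball (by linarith)
  refine ⟨g, hg1.mono hsub, hg2, fun u hu => hg3 u (hsub hu), ?_⟩
  -- bound for the derivative on ball x (r1/2)
  have hgb := hgM (n0 + 1) x hx g hinv
  have hd1 : ∀ u ∈ ball x (r1 / 2), ‖deriv g u‖ ≤ M1 := by
    intro u hu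
    have hcb : closedBall u (r1 / 2) ⊆ closedBall x r1 := by
      intro v hv
      rw [mem_closedBall] at hv ⊢
      rw [mem_ball] at hu
      have := dist_triangle v u x; linarith
    have hcb' : ball u (r1 / 2) ⊆ ball x r1 := by
      intro v hv
      rw [mem_ball] at hv hu ⊢
      have := dist_triangle v u x; linarith
    have h7 : MapsTo g (ball u (r1 / 2)) (closedBall 0 M) := by
      intro v hv
      rw [mem_closedBall_zero_iff]
      exact (hgb v (hcb' hv)).le
    -- Cauchy on smaller circles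
    have h8 : ∀ s : ℝ, 0 < s → s < r1 / 2 → ‖deriv g u‖ ≤ M / s := by
      intro s hs hs'
      refine Complex.norm_deriv_le_of_forall_mem_sphere_norm_le hs ?_ ?_
      · refine (hg1.mono ?_).diffContOnCl_ball (fun v hv => hcb' (closedBall_subset_ball hs' hv))
        exact Subset.rfl
      · intro v hv
        have : v ∈ ball u (r1 / 2) := by
          rw [mem_sphere] at hv; rw [mem_ball, hv]; exact hs'
        exact (hgb v (hcb' this)).le
    have h9 : Tendsto (fun s : ℝ => M / s) (𝓝[<] (r1 / 2)) (𝓝 (M / (r1 / 2))) :=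
      ((continuousAt_const.div continuousAt_id (by simp; linarith)).tendsto).mono_left
        nhdsWithin_le_nhds
    refine ge_of_tendsto h9 ?_
    have h10 : ∀ᶠ s in 𝓝[<] (r1 / 2), s ∈ Ioo 0 (r1 / 2) := Ioo_mem_nhdsLT (by linarith)
    filter_upwards [h10] with s hs
    exact h8 s hs.1 hs.2
  have hd2 : DifferentiableOn ℂ (deriv g) (ball x (r1 / 2)) :=
    (hg1.deriv isOpen_ball).mono (ball_subset_ball (by linarith))
  have hxm : x ∈ ball x (r1 / 2) := mem_ball_self (by linarith)
  have hd3 : MapsTo (deriv g) (ball x (r1 / 2)) (closedBall (deriv g x) (2 * M1)) := by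
    intro u hu
    rw [mem_closedBall, dist_eq_norm]
    have := norm_sub_le (deriv g u) (deriv g x)
    have a1 := hd1 u hu
    have a2 := hd1 x hxm
    linarith
  have hd4 : ∀ u ∈ ball x r, ‖deriv g u‖ ≤ 1 / 2 := by
    intro u hu
    have hu' : u ∈ ball x (r1 / 2) := ball_subset_ball hrr hu
    have a1 := Complex.dist_le_div_mul_dist_of_mapsTo_ball hd2 hd3 hu'
    have a2 := hder (n0 + 1) (by omega) x hx g hg1 hinv
    have a3 : dist (deriv g u) (deriv g x) ≤ 1 / 4 := by
      refine a1.trans ?_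
      rw [← hc]
      rw [mem_ball] at hu
      have a4 : dist u x ≤ 1 / (4 * c) := hu.le.trans hrr'
      calc c * dist u x ≤ c * (1 / (4 * c)) := by gcongr
        _ = 1 / 4 := by field_simp
    rw [dist_eq_norm] at a3
    have a5 : ‖deriv g u‖ ≤ ‖deriv g u - deriv g x‖ + ‖deriv g x‖ := by
      have := norm_add_le (deriv g u - deriv g x) (deriv g x); simpa using this
    linarith
  intro u hu v hv
  have key := (convex_ball x r).norm_image_sub_le_of_norm_deriv_le (𝕜 := ℂ) (f := g) (C := 1 / 2)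
    (fun y hy => (hg1.differentiableAt (isOpen_ball.mem_nhds (hsub hy)))) hd4 hv hu
  rw [dist_eq_norm, dist_eq_norm]
  linarith

end Pool.Agent.W363.JQ
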