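import Pool.Agent.W363.JQ.Stm

set_option autoImplicit false
open Filter Topology Set Metric

namespace Pool.Agent.W363.JQ

theorem ex_of_exN {f F : Polynomial ℂ} {r : ℝ} {n : ℕ} (hn : 1 ≤ n)
    (hF : ∀ z, F.eval z = it f n z) (hJ : JJ F = JJ f) (h : ExN f r n) : Ex F r := by
  refine ⟨h.1, fun x hx w hw z hz => ?_⟩
  rw [hJ] at hx
  obtain ⟨g, h1, h2, -, h4, h5⟩ := h.2 x hx w hw z (by rw [← hF]; exact hz)
  refine ⟨g, h1, h2, fun u hu => by rw [hF]; exact h4 u hu, fun u hu v hv => ?_⟩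
  refine (h5 u hu v hv).trans ?_
  have h2n : (2 : ℝ) ≤ 2 ^ n := by
    calc (2 : ℝ) = 2 ^ 1 := by norm_num
      _ ≤ 2 ^ n := pow_le_pow_right₀ (by norm_num) hn
  exact div_le_div_of_nonneg_left dist_nonneg (by norm_num) h2n

theorem start (h1 : S_basic) (h2 : S_hypiter) (h3 : S_exp) (h4 : S_exn) (h5 : S_nint)
    (h6 : S_bott) (h7 : S_pcK) (h8 : S_per) (h9 : S_ninj) : S_start := by
  intro f hf
  obtain ⟨F1, r, hK1, hF1, hE1⟩ := h3 f hf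
  have hB1 : Bas F1 := h1 F1 hF1.deg
  obtain ⟨Φ, hΦ⟩ := h6 F1 hB1 hF1.conn (h5 F1 hF1)
  obtain ⟨n, hn, U, hU1, hU2, hU3, hU4, hU5⟩ := h8 F1 hB1 hF1 (h7 F1 Φ hB1 hΦ)
  obtain ⟨F, hFe, -, hKF, hHF⟩ := h2 F1 hF1 n hn
  have hJF : JJ F = JJ F1 := by unfold JJ; rw [hKF]
  have hEF : Ex F r := ex_of_exN hn hFe hJF (h4 F1 r hB1 hE1 n)
  have hBF : Bas F := h1 F hHF.deg
  have m1 : ∀ z ∈ U, F.eval z ∈ U := fun z hz => by rw [hFe]; exact hU5 z hz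
  refine ⟨F, r, U, hKF.trans hK1, ⟨hHF, hEF, hU1, hU2, by rw [hKF]; exact hU3,
    by rw [hJF]; exact hU4, m1, ?_⟩⟩
  exact h9 F r U hBF hEF hU1 hU2 (by rw [hKF]; exact hU3) (by rw [hJF]; exact hU4) m1

end Pool.Agent.W363.JQ
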