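import Pool.Agent.W363.JQ.Asm
import Pool.Agent.W363.JQ.Start
import Pool.Agent.W363.JQ.Exp
import Pool.Agent.W363.JQ.Dom
import Pool.Agent.W346.JQ.Basic
import Pool.Agent.W346.JQ.HypIter
import Pool.Agent.W346.JQ.Shr
import Pool.Agent.W538.JQ.Lift
import Pool.Agent.W538.JQ.Rmt
import Pool.Agent.W571.JQ.Exn
import Pool.Agent.W571.JQ.Disc
import Pool.Agent.W628.JQ.Nint
import Pool.Agent.W628.JQ.LTab
import Pool.Agent.W589.JQ.Bott
import Pool.Agent.W653.JQ.Cara
import Pool.Agent.W880.JQ.Perang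
import Pool.Agent.W880.JQ.Dist
import Pool.Agent.W809.JQ.Sep
import Pool.Agent.W427.JQ.Pck
import Pool.Agent.W381.JQ.Ninj
import Pool.Agent.W99.JQ.Pcl
import Pool.Agent.W585.JQ.Tree
import Pool.Agent.W368.JQ.Pair
import Pool.Agent.W597.JQ.Psi
import Pool.Agent.W597.JQ.Ltt
import Pool.Agent.W782.JQ.Glue
import Pool.Agent.W782.JQ.Maps
import Pool.Agent.W782.JQ.Bu
import Pool.Agent.W191.JQ.Chain
import Pool.Agent.W800.JQ.Bla
import Pool.Agent.W800.JQ.Code
import Pool.Agent.W800.JQ.Main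

set_option autoImplicit false
open Filter Topology Set Metric

namespace Pool.Agent.W363.JQ

theorem h_basic : S_basic := Pool.Agent.W346.JQ.basic Pool.Agent.W346.JQ.cconn
theorem h_hypiter : S_hypiter := Pool.Agent.W346.JQ.hypiter h_basic
theorem h_exp : S_exp := exp0 h_basic h_hypiter Pool.Agent.W538.JQ.branch
theorem h_exn : S_exn := Pool.Agent.W571.JQ.exn
theorem h_uniq : S_uniq := Pool.Agent.W571.JQ.uniq h_exn
theorem h_shr : S_shr := Pool.Agent.W346.JQ.shr h_exn h_uniq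
theorem h_domU : S_domU := domU comp
theorem h_domO : S_domO := domO comp
theorem h_nint : S_nint := Pool.Agent.W628.JQ.nint h_basic comp Pool.Agent.W538.JQ.rmt
  Pool.Agent.W538.JQ.branch
theorem h_bott : S_bott := Pool.Agent.W589.JQ.bott Pool.Agent.W538.JQ.rmt h_domO
  Pool.Agent.W800.JQ.blaschke
theorem h_cara : S_cara := Pool.Agent.W653.JQ.cara h_shr
theorem h_bu : S_bu := Pool.Agent.W782.JQ.bu h_exn h_uniq
theorem h_pcK : S_pcK := Pool.Agent.W427.JQ.pcK
theorem h_per : S_per := Pool.Agent.W427.JQ.per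
theorem h_ninj : S_ninj := Pool.Agent.W381.JQ.ninj h_exn
theorem h_start : S_start := start h_basic h_hypiter h_exp h_exn h_nint h_bott h_pcK h_per h_ninj
theorem h_disc : S_disc := Pool.Agent.W571.JQ.disc0 Pool.Agent.W538.JQ.rmt h_domU
theorem h_pcl : S_pcl := Pool.Agent.W99.JQ.pcl Pool.Agent.W538.JQ.plift Pool.Agent.W538.JQ.plu
theorem h_tree : S_tree := Pool.Agent.W585.JQ.tree h_pcl h_shr
theorem h_pair : S_pair := Pool.Agent.W368.JQ.pair h_basic h_hypiter h_exn h_bu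
  Pool.Agent.W880.JQ.perang Pool.Agent.W809.JQ.sep
theorem h_psi : S_psi := Pool.Agent.W597.JQ.psi0 h_uniq
theorem h_LTab : S_LTab := Pool.Agent.W628.JQ.ltab Pool.Agent.W880.JQ.dist0
theorem h_chain : S_chain := Pool.Agent.W191.JQ.chain Pool.Agent.W597.JQL.ltt
  Pool.Agent.W782.JQ.tr
theorem h_main : S_main := Pool.Agent.W800.JQ.main0 Pool.Agent.W597.JQ.satT h_LTab h_chain
  Pool.Agent.W782.JQ.maps Pool.Agent.W782.JQ.glue

theorem almost (hbase : S_base) :
    ¬ (∃ f : Polynomial ℂ, ∃ J : Set ℂ,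
      2 ≤ f.natDegree ∧
      J = frontier {z : ℂ | Bornology.IsBounded
            (Set.range (fun n : ℕ => (fun w : ℂ => f.eval w)^[n] z))} ∧
      Disjoint (closure (⋃ c ∈ {c : ℂ | f.derivative.eval c = 0},
            Set.range (fun n : ℕ => (fun w : ℂ => f.eval w)^[n] c))) J ∧
      IsConnected J ∧
      Set.Finite {h : J ≃ₜ J | ∃ η : ℝ → ℝ, η 0 = 0 ∧
          StrictMonoOn η (Set.Ici 0) ∧ ContinuousOn η (Set.Ici 0) ∧
          Tendsto η atTop atTop ∧
          ∀ a x y : J, y ≠ a →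
            dist (h x) (h a) ≤ η (dist x a / dist y a) * dist (h y) (h a)}) :=
  final h_basic h_start h_bott h_cara h_pcK h_disc hbase h_tree Pool.Agent.W800.JQ.code h_pair
    h_psi h_main Pool.Agent.W782.JQ.fin0

end Pool.Agent.W363.JQ
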