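import Pool.Agent.W363.JQ.Stm

set_option autoImplicit false
open Filter Topology Set Metric

namespace Pool.Agent.W363.JQ

theorem jj_of_kk {f F : Polynomial ℂ} (h : KK F = KK f) : JJ F = JJ f := by
  unfold JJ; rw [h]

theorem asm (hbasic : S_basic) (hstart : S_start) (hbott : S_bott) (hcara : S_cara)
    (hpcK : S_pcK) (hdisc : S_disc) (hbase : S_base) (htree : S_tree) (hcode : S_code)
    (hpair : S_pair) (hpsi : S_psi) (hmain : S_main) (f : Polynomial ℂ) (hf : Hyp f) :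
    ∃ (Ψ : JJ f ≃ₜ JJ f) (L : ℝ), 1 ≤ L ∧ (∀ x y : JJ f, dist (Ψ x) (Ψ y) ≤ L * dist x y ∧
      dist x y ≤ L * dist (Ψ x) (Ψ y)) ∧
      ∀ k : ℕ, 1 ≤ k → ∃ x : JJ f, (fun y : JJ f => Ψ y)^[k] x ≠ x := by
  obtain ⟨F, r, U, hK, hD⟩ := hstart f hf
  have hB : Bas F := hbasic F hD.hyp.deg
  have hU : U.Nonempty := hD.co.nonempty
  have hint : (interior (KK F)).Nonempty := by
    obtain ⟨u, hu⟩ := hU
    exact ⟨u, mem_interior.2 ⟨U, hD.sub, hD.op, hu⟩⟩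
  obtain ⟨Φ, hΦ⟩ := hbott F hB hD.hyp.conn hint
  obtain ⟨φ, hφ⟩ := hcara F r Φ hB hD.ex hΦ
  have hPC : PC F ⊆ KK F := hpcK F Φ hB hΦ
  obtain ⟨p, ψ, χ, hψ⟩ := hdisc F r U hB hD
  obtain ⟨A, z₀, z, c, hA⟩ := hbase F r U p ψ χ hB hD (hB.cpt.isBounded.subset hPC) hψ
  obtain ⟨Z, hZ⟩ := htree F r U A z₀ z c hB hD hA
  have hne : ∀ x ∈ frontier U, F.derivative.eval x ≠ 0 := by
    intro x hx h0
    have h1 : x ∈ PC F := by
      apply subset_closure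
      refine mem_iUnion₂.2 ⟨x, h0, ⟨0, rfl⟩⟩
    exact Set.disjoint_left.1 hD.hyp.disj h1 (hD.fr hx)
  have hinf := hcode F U Z hne hZ
  obtain ⟨G, α, β, hG, hfin⟩ := hpair F r U Φ φ hB hD hΦ hφ hinf
  obtain ⟨ψ₀, ψ₁, hpsi'⟩ := hpsi G r φ α β hfin
  have key := hmain G r φ α β ψ₀ ψ₁ hfin hpsi'
  have e : JJ G = JJ f := (jj_of_kk hG).trans (jj_of_kk hK)
  rw [e] at key
  exact key

theorem final (hbasic : S_basic) (hstart : S_start) (hbott : S_bott) (hcara : S_cara)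
    (hpcK : S_pcK) (hdisc : S_disc) (hbase : S_base) (htree : S_tree) (hcode : S_code)
    (hpair : S_pair) (hpsi : S_psi) (hmain : S_main) (hfin : S_fin) :
    ¬ (∃ f : Polynomial ℂ, ∃ J : Set ℂ,
      2 ≤ f.natDegree ∧
      J = frontier {z : ℂ | Bornology.IsBounded
            (Set.range (fun n : ℕ => (fun w : ℂ => f.eval w)^[n] z))} ∧
      Disjoint (closure (⋃ c ∈ {c : ℂ | f.derivative.eval c = 0},
            Set.range (fun n : ℕ => (fun w : ℂ => f.eval w)^[n] c))) J ∧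
      IsConnected J ∧
      Set.Finite {h : J ≃ₜ J | ∃ η : ℝ → ℝ, η 0 = 0 ∧
          StrictMonoOn η (Set.Ici 0) ∧ ContinuousOn η (Set.Ici 0) ∧
          Tendsto η atTop atTop ∧
          ∀ a x y : J, y ≠ a →
            dist (h x) (h a) ≤ η (dist x a / dist y a) * dist (h y) (h a)}) := by
  rintro ⟨f, J, h2, hJ, hd, hc, hfi⟩
  have e : J = JJ f := hJ
  subst e
  obtain ⟨Ψ, L, hL, hbi, hk⟩ := asm hbasic hstart hbott hcara hpcK hdisc hbase htree hcode hpair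
    hpsi hmain f ⟨h2, hd, hc⟩
  exact hfin (JJ f) Ψ L hL hbi hk hfi

end Pool.Agent.W363.JQ
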